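import Mathlib

namespace Pool.Agent.Results.MP_123198_al.No
open Matrix

def toR {d : ℕ} (a : Fin d → ℤ) : Fin d → ℝ := fun i => (a i : ℝ)

def poly {d : ℕ} (F : Subgroup (GL (Fin d) ℤ)) (A : Finset (Fin d → ℤ)) : Set (Fin d → ℝ) :=
  convexHull ℝ {x | ∃ f ∈ F, ∃ a ∈ A, x = toR ((f : Matrix (Fin d) (Fin d) ℤ).mulVec a)}

def IsFacet {d : ℕ} (P S : Set (Fin d → ℝ)) : Prop :=
  ∃ (l : (Fin d → ℝ) →ₗ[ℝ] ℝ) (c : ℝ), l ≠ 0 ∧ (∀ x ∈ P, l x ≤ c) ∧ S = {x | x ∈ P ∧ l x = c} ∧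
    S.Nonempty ∧ Module.finrank ℝ (vectorSpan ℝ S) + 1 = d

def Admissible {d : ℕ} (F : Subgroup (GL (Fin d) ℤ)) (A : Finset (Fin d → ℤ)) : Prop :=
  (interior (poly F A)).Nonempty ∧
    ∀ S, IsFacet (poly F A) S → ∀ a ∈ A, ∀ b ∈ A, toR a ∈ S → toR b ∈ S → a = b

def bl (h : ℤ × ℤ × ℤ × ℤ) : Matrix (Fin 6) (Fin 6) ℤ :=
  !![h.1, h.2.1, 0, 0, 0, 0; h.2.2.1, h.2.2.2, 0, 0, 0, 0; 0, 0, h.1, h.2.1, 0, 0;
    0, 0, h.2.2.1, h.2.2.2, 0, 0; 0, 0, 0, 0, h.1, h.2.1; 0, 0, 0, 0, h.2.2.1, h.2.2.2]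

def mq (a b : ℤ × ℤ × ℤ × ℤ) : ℤ × ℤ × ℤ × ℤ :=
  (a.1 * b.1 + a.2.1 * b.2.2.1, a.1 * b.2.1 + a.2.1 * b.2.2.2,
    a.2.2.1 * b.1 + a.2.2.2 * b.2.2.1, a.2.2.1 * b.2.1 + a.2.2.2 * b.2.2.2)

theorem bl_mul (a b : ℤ × ℤ × ℤ × ℤ) : bl a * bl b = bl (mq a b) := by
  ext i j
  fin_cases i <;> fin_cases j <;> simp [bl, mq, Matrix.mul_apply, Fin.sum_univ_succ]

theorem bl_one : bl (1, 0, 0, 1) = 1 := by
  ext i j
  fin_cases i <;> fin_cases j <;> simp [bl]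

def L : List (ℤ × ℤ × ℤ × ℤ) := [(1, 0, 0, 1), (0, -1, 1, 1), (1, 1, 0, -1), (-1, -1, 1, 0), (0, 1, 1, 0), (1, 0, -1, -1), (-1, 0, 0, -1), (-1, 0, 1, 1), (0, -1, -1, 0), (1, 1, -1, 0), (0, 1, -1, -1), (-1, -1, 0, 1)]

theorem L_mul : ∀ a ∈ L, ∀ b ∈ L, mq a b ∈ L := by decide

theorem L_inv : ∀ a ∈ L, ∃ b ∈ L, mq a b = (1, 0, 0, 1) ∧ mq b a = (1, 0, 0, 1) := by decide

def F0 : Subgroup (GL (Fin 6) ℤ) where
  carrier := {g | ∃ h ∈ L, (g : Matrix (Fin 6) (Fin 6) ℤ) = bl h}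
  mul_mem' := by
    rintro g g' ⟨h, hh, e⟩ ⟨h', hh', e'⟩
    exact ⟨mq h h', L_mul h hh h' hh', by rw [Units.val_mul, e, e', bl_mul]⟩
  one_mem' := ⟨(1, 0, 0, 1), by decide, by rw [bl_one]; rfl⟩
  inv_mem' := by
    rintro g ⟨h, hh, e⟩
    obtain ⟨b, hb, h1, _⟩ := L_inv h hh
    refine ⟨b, hb, ?_⟩
    exact Units.inv_eq_of_mul_eq_one_right (by rw [e, bl_mul, h1, bl_one])

theorem F0_fin : Finite F0 := by
  have h1 : ((fun g : GL (Fin 6) ℤ => (g : Matrix (Fin 6) (Fin 6) ℤ)) '' (F0 : Set _)).Finite := by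
    refine ((List.finite_toSet L).image bl).subset ?_
    rintro _ ⟨g, ⟨h, hh, e⟩, rfl⟩
    exact ⟨h, hh, e.symm⟩
  exact (Set.Finite.of_finite_image h1 Units.val_injective.injOn).to_subtype

theorem F0_mem (h : ℤ × ℤ × ℤ × ℤ) (hh : h ∈ L) :
    ∃ f ∈ F0, (f : Matrix (Fin 6) (Fin 6) ℤ) = bl h := by
  obtain ⟨b, _, h1, h2⟩ := L_inv h hh
  exact ⟨⟨bl h, bl b, by rw [bl_mul, h1, bl_one], by rw [bl_mul, h2, bl_one]⟩, ⟨h, hh, rfl⟩, rfl⟩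

def A0 : Finset (Fin 6 → ℤ) := {![0, 0, 0, 0, 3, 1], ![6, 0, 0, 6, 0, 0], ![6, 0, 0, 6, -3, 4], ![-5, 10, -10, 5, -2, -1], ![0, 0, 0, 0, -3, -1], ![-6, 0, 0, -6, 0, 0], ![-6, 0, 0, -6, 3, -4], ![5, -10, 10, -5, 2, 1]}

theorem lin (l : (Fin 6 → ℝ) →ₗ[ℝ] ℝ) : ∃ y : Fin 6 → ℝ, ∀ x, l x = x 0 * y 0 + x 1 * y 1 +
    x 2 * y 2 + x 3 * y 3 + x 4 * y 4 + x 5 * y 5 := by
  refine ⟨fun i => l (fun j => if i = j then 1 else 0), fun x => ?_⟩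
  rw [LinearMap.pi_apply_eq_sum_univ]
  simp [Fin.sum_univ_succ, add_assoc]

def ev (y : Fin 6 → ℝ) (h : ℤ × ℤ × ℤ × ℤ) (a : Fin 6 → ℤ) : ℝ :=
  (h.1 * a 0 + h.2.1 * a 1) * y 0 + (h.2.2.1 * a 0 + h.2.2.2 * a 1) * y 1 +
  (h.1 * a 2 + h.2.1 * a 3) * y 2 + (h.2.2.1 * a 2 + h.2.2.2 * a 3) * y 3 +
  (h.1 * a 4 + h.2.1 * a 5) * y 4 + (h.2.2.1 * a 4 + h.2.2.2 * a 5) * y 5

theorem lin_ev (l : (Fin 6 → ℝ) →ₗ[ℝ] ℝ) (y : Fin 6 → ℝ) (hy : ∀ x, l x = x 0 * y 0 + x 1 * y 1 +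
    x 2 * y 2 + x 3 * y 3 + x 4 * y 4 + x 5 * y 5) (h : ℤ × ℤ × ℤ × ℤ) (a : Fin 6 → ℤ) :
    l (toR ((bl h).mulVec a)) = ev y h a := by
  rw [hy]
  simp [toR, bl, ev, Matrix.mulVec, dotProduct, Fin.sum_univ_succ]

theorem core (y : Fin 6 → ℝ) (c : ℝ) (H : ∀ h ∈ L, ∀ a ∈ A0, ev y h a ≤ c) :
    (c ≤ 0 → y 0 = 0 ∧ y 1 = 0 ∧ y 2 = 0 ∧ y 3 = 0 ∧ y 4 = 0 ∧ y 5 = 0) ∧
    (0 < c → ∀ a ∈ A0, ∀ b ∈ A0, ev y (1, 0, 0, 1) a = c → ev y (1, 0, 0, 1) b = c → a = b) := by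
  have g0_0 := H (1, 0, 0, 1) (by decide) ![0, 0, 0, 0, 3, 1] (by decide)
  have g0_1 := H (1, 0, 0, 1) (by decide) ![6, 0, 0, 6, 0, 0] (by decide)
  have g0_2 := H (1, 0, 0, 1) (by decide) ![6, 0, 0, 6, -3, 4] (by decide)
  have g0_3 := H (1, 0, 0, 1) (by decide) ![-5, 10, -10, 5, -2, -1] (by decide)
  have g1_0 := H (0, -1, 1, 1) (by decide) ![0, 0, 0, 0, 3, 1] (by decide)
  have g1_1 := H (0, -1, 1, 1) (by decide) ![6, 0, 0, 6, 0, 0] (by decide)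
  have g1_2 := H (0, -1, 1, 1) (by decide) ![6, 0, 0, 6, -3, 4] (by decide)
  have g1_3 := H (0, -1, 1, 1) (by decide) ![-5, 10, -10, 5, -2, -1] (by decide)
  have g2_0 := H (1, 1, 0, -1) (by decide) ![0, 0, 0, 0, 3, 1] (by decide)
  have g2_1 := H (1, 1, 0, -1) (by decide) ![6, 0, 0, 6, 0, 0] (by decide)
  have g2_2 := H (1, 1, 0, -1) (by decide) ![6, 0, 0, 6, -3, 4] (by decide)
  have g2_3 := H (1, 1, 0, -1) (by decide) ![-5, 10, -10, 5, -2, -1] (by decide)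
  have g3_0 := H (-1, -1, 1, 0) (by decide) ![0, 0, 0, 0, 3, 1] (by decide)
  have g3_1 := H (-1, -1, 1, 0) (by decide) ![6, 0, 0, 6, 0, 0] (by decide)
  have g3_2 := H (-1, -1, 1, 0) (by decide) ![6, 0, 0, 6, -3, 4] (by decide)
  have g3_3 := H (-1, -1, 1, 0) (by decide) ![-5, 10, -10, 5, -2, -1] (by decide)
  have g4_0 := H (0, 1, 1, 0) (by decide) ![0, 0, 0, 0, 3, 1] (by decide)
  have g4_1 := H (0, 1, 1, 0) (by decide) ![6, 0, 0, 6, 0, 0] (by decide)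
  have g4_2 := H (0, 1, 1, 0) (by decide) ![6, 0, 0, 6, -3, 4] (by decide)
  have g4_3 := H (0, 1, 1, 0) (by decide) ![-5, 10, -10, 5, -2, -1] (by decide)
  have g5_0 := H (1, 0, -1, -1) (by decide) ![0, 0, 0, 0, 3, 1] (by decide)
  have g5_1 := H (1, 0, -1, -1) (by decide) ![6, 0, 0, 6, 0, 0] (by decide)
  have g5_2 := H (1, 0, -1, -1) (by decide) ![6, 0, 0, 6, -3, 4] (by decide)
  have g5_3 := H (1, 0, -1, -1) (by decide) ![-5, 10, -10, 5, -2, -1] (by decide)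
  have g6_0 := H (-1, 0, 0, -1) (by decide) ![0, 0, 0, 0, 3, 1] (by decide)
  have g6_1 := H (-1, 0, 0, -1) (by decide) ![6, 0, 0, 6, 0, 0] (by decide)
  have g6_2 := H (-1, 0, 0, -1) (by decide) ![6, 0, 0, 6, -3, 4] (by decide)
  have g6_3 := H (-1, 0, 0, -1) (by decide) ![-5, 10, -10, 5, -2, -1] (by decide)
  have g7_0 := H (-1, 0, 1, 1) (by decide) ![0, 0, 0, 0, 3, 1] (by decide)
  have g7_1 := H (-1, 0, 1, 1) (by decide) ![6, 0, 0, 6, 0, 0] (by decide)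
  have g7_2 := H (-1, 0, 1, 1) (by decide) ![6, 0, 0, 6, -3, 4] (by decide)
  have g7_3 := H (-1, 0, 1, 1) (by decide) ![-5, 10, -10, 5, -2, -1] (by decide)
  have g8_0 := H (0, -1, -1, 0) (by decide) ![0, 0, 0, 0, 3, 1] (by decide)
  have g8_1 := H (0, -1, -1, 0) (by decide) ![6, 0, 0, 6, 0, 0] (by decide)
  have g8_2 := H (0, -1, -1, 0) (by decide) ![6, 0, 0, 6, -3, 4] (by decide)
  have g8_3 := H (0, -1, -1, 0) (by decide) ![-5, 10, -10, 5, -2, -1] (by decide)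
  have g9_0 := H (1, 1, -1, 0) (by decide) ![0, 0, 0, 0, 3, 1] (by decide)
  have g9_1 := H (1, 1, -1, 0) (by decide) ![6, 0, 0, 6, 0, 0] (by decide)
  have g9_2 := H (1, 1, -1, 0) (by decide) ![6, 0, 0, 6, -3, 4] (by decide)
  have g9_3 := H (1, 1, -1, 0) (by decide) ![-5, 10, -10, 5, -2, -1] (by decide)
  have g10_0 := H (0, 1, -1, -1) (by decide) ![0, 0, 0, 0, 3, 1] (by decide)
  have g10_1 := H (0, 1, -1, -1) (by decide) ![6, 0, 0, 6, 0, 0] (by decide)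
  have g10_2 := H (0, 1, -1, -1) (by decide) ![6, 0, 0, 6, -3, 4] (by decide)
  have g10_3 := H (0, 1, -1, -1) (by decide) ![-5, 10, -10, 5, -2, -1] (by decide)
  have g11_0 := H (-1, -1, 0, 1) (by decide) ![0, 0, 0, 0, 3, 1] (by decide)
  have g11_1 := H (-1, -1, 0, 1) (by decide) ![6, 0, 0, 6, 0, 0] (by decide)
  have g11_2 := H (-1, -1, 0, 1) (by decide) ![6, 0, 0, 6, -3, 4] (by decide)
  have g11_3 := H (-1, -1, 0, 1) (by decide) ![-5, 10, -10, 5, -2, -1] (by decide)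
  simp [ev] at g0_0 g0_1 g0_2 g0_3 g1_0 g1_1 g1_2 g1_3 g2_0 g2_1 g2_2 g2_3 g3_0 g3_1 g3_2 g3_3 g4_0 g4_1 g4_2 g4_3 g5_0 g5_1 g5_2 g5_3 g6_0 g6_1 g6_2 g6_3 g7_0 g7_1 g7_2 g7_3 g8_0 g8_1 g8_2 g8_3 g9_0 g9_1 g9_2 g9_3 g10_0 g10_1 g10_2 g10_3 g11_0 g11_1 g11_2 g11_3
  refine ⟨fun hc => ⟨by linarith, by linarith, by linarith, by linarith, by linarith,
    by linarith⟩, fun hc a ha b hb h1 h2 => ?_⟩
  simp only [A0, Finset.mem_insert, Finset.mem_singleton] at ha hb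
  rcases ha with rfl | rfl | rfl | rfl | rfl | rfl | rfl | rfl <;>
  rcases hb with rfl | rfl | rfl | rfl | rfl | rfl | rfl | rfl <;>
  first
    | rfl
    | (exfalso; simp [ev] at h1 h2; linarith)

theorem mem_poly (A : Finset (Fin 6 → ℤ)) (h : ℤ × ℤ × ℤ × ℤ) (hh : h ∈ L) (a : Fin 6 → ℤ)
    (ha : a ∈ A) : toR ((bl h).mulVec a) ∈ poly F0 A := by
  obtain ⟨f, hf, e⟩ := F0_mem h hh
  exact subset_convexHull ℝ _ ⟨f, hf, a, ha, by rw [e]⟩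

theorem lzero (l : (Fin 6 → ℝ) →ₗ[ℝ] ℝ) (c : ℝ) (hc : c ≤ 0) (H : ∀ x ∈ poly F0 A0, l x ≤ c) :
    l = 0 := by
  obtain ⟨y, hy⟩ := lin l
  obtain ⟨h0, h1, h2, h3, h4, h5⟩ := (core y c (fun h hh a ha => by
    rw [← lin_ev l y hy]; exact H _ (mem_poly A0 h hh a ha))).1 hc
  ext x
  simp [hy, h0, h1, h2, h3, h4, h5]

theorem adm : Admissible F0 A0 := by
  constructor
  · by_contra hne
    have hconv : Convex ℝ (poly F0 A0) := convex_convexHull ℝ _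
    have h0 : (0 : Fin 6 → ℝ) ∉ interior (poly F0 A0) := fun h => hne ⟨0, h⟩
    have hn : (poly F0 A0).Nonempty :=
      ⟨_, mem_poly A0 (1, 0, 0, 1) (by decide) ![0, 0, 0, 0, 3, 1] (by decide)⟩
    rw [hconv.interior_nonempty_iff_affineSpan_eq_top] at hne
    have hd : vectorSpan ℝ (poly F0 A0) ≠ ⊤ := fun h =>
      hne ((AffineSubspace.affineSpan_eq_top_iff_vectorSpan_eq_top_of_nonempty ℝ _ _ hn).2 h)
    obtain ⟨l, hl0, hl⟩ := Submodule.exists_le_ker_of_lt_top _ (lt_top_iff_ne_top.2 hd)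
    apply hl0
    have p1 := mem_poly A0 (1, 0, 0, 1) (by decide) ![0, 0, 0, 0, 3, 1] (by decide)
    have p2 := mem_poly A0 (-1, 0, 0, -1) (by decide) ![0, 0, 0, 0, 3, 1] (by decide)
    obtain ⟨y, hy⟩ := lin l
    have e12 := hl (vsub_mem_vectorSpan ℝ p1 p2)
    rw [LinearMap.mem_ker, vsub_eq_sub, map_sub, lin_ev l y hy, lin_ev l y hy] at e12
    refine lzero l 0 le_rfl fun x hx => ?_
    have e := hl (vsub_mem_vectorSpan ℝ hx p1)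
    rw [LinearMap.mem_ker, vsub_eq_sub, map_sub, lin_ev l y hy] at e
    simp [ev] at e e12
    linarith
  · rintro S ⟨l, c, hl0, hl, rfl, -, -⟩ a ha b hb h1 h2
    have hc : 0 < c := by
      by_contra h
      exact hl0 (lzero l c (not_lt.1 h) hl)
    obtain ⟨y, hy⟩ := lin l
    refine (core y c (fun h hh a ha => by
      rw [← lin_ev l y hy]; exact hl _ (mem_poly A0 h hh a ha))).2 hc a ha b hb ?_ ?_
    · rw [← lin_ev l y hy, bl_one, Matrix.one_mulVec]; exact h1.2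
    · rw [← lin_ev l y hy, bl_one, Matrix.one_mulVec]; exact h2.2

theorem notB (v : Fin 6 → ℤ) : ¬ Admissible F0 {v, -v} := by
  rintro ⟨hi, -⟩
  obtain ⟨y, hy0, hy⟩ : ∃ y : Fin 3 → ℝ, y ≠ 0 ∧
      (!![(v 0 : ℝ), v 2, v 4; v 1, v 3, v 5] : Matrix (Fin 2) (Fin 3) ℝ).mulVec y = 0 := by
    have := LinearMap.ker_ne_bot_of_finrank_lt (f := Matrix.mulVecLin
      (!![(v 0 : ℝ), v 2, v 4; v 1, v 3, v 5] : Matrix (Fin 2) (Fin 3) ℝ)) (by simp)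
    obtain ⟨y, h1, h2⟩ := Submodule.exists_mem_ne_zero_of_ne_bot this
    exact ⟨y, h2, h1⟩
  have e0 := congrFun hy 0
  have e1 := congrFun hy 1
  simp [Matrix.mulVec, dotProduct, Fin.sum_univ_succ] at e0 e1
  let l : (Fin 6 → ℝ) →ₗ[ℝ] ℝ :=
    y 0 • LinearMap.proj 0 + y 1 • LinearMap.proj 2 + y 2 • LinearMap.proj 4
  have hl : ∀ x, l x = y 0 * x 0 + y 1 * x 2 + y 2 * x 4 := fun x => by simp [l]
  have hconv : Convex ℝ (poly F0 {v, -v}) := convex_convexHull ℝ _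
  rw [hconv.interior_nonempty_iff_affineSpan_eq_top] at hi
  have hsub : poly F0 {v, -v} ⊆ (LinearMap.ker l : Set (Fin 6 → ℝ)) := by
    refine convexHull_min ?_ (LinearMap.ker l).convex
    rintro x ⟨f, ⟨h, -, e⟩, a, ha, rfl⟩
    rw [e, SetLike.mem_coe, LinearMap.mem_ker, hl]
    simp only [Finset.mem_insert, Finset.mem_singleton] at ha
    rcases ha with rfl | rfl
    · simp [toR, bl, Matrix.mulVec, dotProduct, Fin.sum_univ_succ]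
      linear_combination (h.1 : ℝ) * e0 + (h.2.1 : ℝ) * e1
    · simp [toR, bl, Matrix.mulVec, dotProduct, Fin.sum_univ_succ]
      linear_combination -(h.1 : ℝ) * e0 - (h.2.1 : ℝ) * e1
  have htop : (LinearMap.ker l).toAffineSubspace = ⊤ := by
    rw [eq_top_iff, ← hi]
    exact affineSpan_le.2 hsub
  have hall : ∀ x, l x = 0 := fun x => by
    have : x ∈ (LinearMap.ker l).toAffineSubspace := by rw [htop]; trivial
    simpa using this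
  apply hy0
  have a0 := hall ![1, 0, 0, 0, 0, 0]
  have a1 := hall ![0, 0, 1, 0, 0, 0]
  have a2 := hall ![0, 0, 0, 0, 1, 0]
  simp [hl] at a0 a1 a2
  ext i
  fin_cases i <;> simp [a0, a1, a2]

theorem result : ¬ ∀ (d : ℕ), 1 ≤ d → ∀ F : Subgroup (GL (Fin d) ℤ), Finite F →
    (∃ A : Finset (Fin d → ℤ), (∀ a ∈ A, -a ∈ A) ∧ Admissible F A) →
    ∃ v : Fin d → ℤ, Admissible F {v, -v} := by
  intro h
  obtain ⟨v, hv⟩ := h 6 (by norm_num) F0 F0_fin ⟨A0, by decide, adm⟩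
  exact notB v hv

end Pool.Agent.Results.MP_123198_al.No
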